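import Mathlib

/-!
A complete, algebraically closed, nontrivially normed ultrametric field of characteristic two.
-/

open Polynomial

namespace Pool.Agent.MP_a88b1d_nt.H5

/-- a complete ultrametric field with a dense algebraically closed subfield is algebraically
closed, in any characteristic -/
theorem algClosed_of_dense {K L : Type*} [Field K] [NontriviallyNormedField L]
    [CompleteSpace L] [IsUltrametricDist L] [Algebra K L]
    (hi : DenseRange (algebraMap K L)) [IsAlgClosed K] : IsAlgClosed L := by
  apply IsAlgClosed.of_exists_root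
  intro f fmon firr
  have fnatdeg0 : f.natDegree ≠ 0 := (Irreducible.natDegree_pos firr).ne'
  let F := f.SplittingField
  let : NormedField F := spectralNorm.normedField L F
  let : NormedAlgebra L F := spectralNorm.normedAlgebra L F
  let a := rootOfSplits (SplittingField.splits f)
      (by simpa using degree_ne_of_natDegree_ne fnatdeg0)
  have fa0 : f.aeval a = 0 := by
    rw [← eval_map_algebraMap]
    exact eval_rootOfSplits (Polynomial.SplittingField.splits f)
      (by simpa using degree_ne_of_natDegree_ne fnatdeg0)
  have hcl : IsClosed (Set.range (algebraMap L F)) :=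
    (algebraMap_isometry L F).isClosedEmbedding.isClosed_range
  have ha : a ∈ Set.range (algebraMap L F) := by
    rw [← hcl.closure_eq, Metric.mem_closure_iff]
    intro δ δpos
    have hε : (δ / (max ‖a‖ 1)) ^ f.natDegree / (f.natDegree + 1) > 0 := by positivity
    obtain ⟨g, gmon, gdeg, gcoeff⟩ :=
      exists_monic_and_natDegree_eq_and_norm_map_algebraMap_coeff_sub_lt hi fmon hε
    obtain ⟨b, hb, hab⟩ := exists_aroots_norm_sub_lt_of_norm_coeff_sub_lt
      hε fa0 fmon (gmon.map _) (gdeg ▸ (g.natDegree_map _)) gcoeff
      (by simpa [Polynomial.map_map] using (IsAlgClosed.splits g).map ((algebraMap L F).comp _))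
    have hab : ‖a - b‖ < δ := by
      rw [← Real.rpow_natCast, ← mul_comm_div, div_self, one_mul,
        ← Real.rpow_mul (div_pos δpos (by positivity)).le, mul_inv_cancel₀] at hab
      · simpa [mul_assoc, div_mul_cancel₀ _ (by positivity : (max ‖a‖ 1) > 0).ne'] using hab
      · simp [fnatdeg0]
      · positivity
    rw [Polynomial.aroots_def, Splits.roots_map ((IsAlgClosed.splits g).map _),
      Multiset.mem_map] at hb
    obtain ⟨c, _, hc⟩ := hb
    exact ⟨b, ⟨c, hc⟩, by rwa [dist_eq_norm]⟩
  obtain ⟨c, hc⟩ := ha
  refine ⟨c, (algebraMap L F).injective ?_⟩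
  rwa [← Polynomial.aeval_algebraMap_apply_eq_algebraMap_eval, hc, map_zero]

theorem ultra (K : Type*) [NormedField K] [CharP K 2] : IsUltrametricDist K := by
  refine IsUltrametricDist.isUltrametricDist_of_forall_norm_natCast_le_one fun n => ?_
  rw [CharP.cast_eq_mod K 2 n]
  rcases Nat.mod_two_eq_zero_or_one n with h | h <;> simp [h]

theorem compl (K : Type) [NontriviallyNormedField K] [CharP K 2] :
    ∃ (C : Type) (_ : NontriviallyNormedField C) (_ : Algebra K C),
      CompleteSpace C ∧ CharP C 2 ∧ DenseRange (algebraMap K C) := by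
  obtain ⟨x, hx⟩ := NormedField.exists_one_lt_norm K
  refine ⟨UniformSpace.Completion K,
    { (inferInstance : NormedField (UniformSpace.Completion K)) with
      non_trivial := ⟨x, by rwa [UniformSpace.Completion.norm_coe]⟩ }, inferInstance,
    inferInstance, ?_, UniformSpace.Completion.denseRange_coe⟩
  exact charP_of_injective_algebraMap (algebraMap K (UniformSpace.Completion K)).injective 2

/-- an absolute value attached to a valuation with values in the integers -/
noncomputable def av {K : Type} [Field K] (v : Valuation K (WithZero (Multiplicative ℤ))) :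
    AbsoluteValue K ℝ where
  toFun x := (WithZeroMulInt.toNNReal (two_ne_zero) (v x) : ℝ)
  map_mul' x y := by simp
  nonneg' x := NNReal.coe_nonneg _
  eq_zero' x := by simp
  add_le' x y := by
    have hm := (WithZeroMulInt.toNNReal_strictMono (e := 2) one_lt_two).monotone
    have h1 := NNReal.coe_nonneg (WithZeroMulInt.toNNReal (two_ne_zero) (v x))
    have h2 := NNReal.coe_nonneg (WithZeroMulInt.toNNReal (two_ne_zero) (v y))
    rcases le_max_iff.1 (v.map_add x y) with h | h
    · have := NNReal.coe_le_coe.2 (hm h)
      linarith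
    · have := NNReal.coe_le_coe.2 (hm h)
      linarith

theorem exK : ∃ (K : Type) (_ : NontriviallyNormedField K), CharP K 2 := by
  classical
  let v := RatFunc.inftyValuation (ZMod 2)
  have h1 : (1 : WithZero (Multiplicative ℤ)) < v RatFunc.X := by
    rw [RatFunc.inftyValuation.X, ← WithZero.exp_zero, WithZero.exp_lt_exp]
    exact one_pos
  have h2 : 1 < av v RatFunc.X := by
    have := WithZeroMulInt.toNNReal_strictMono (e := 2) one_lt_two h1
    rw [map_one] at this
    exact_mod_cast this
  refine ⟨WithAbs (av v), { (inferInstance : NormedField (WithAbs (av v))) with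
    non_trivial := ⟨WithAbs.toAbs _ RatFunc.X, h2⟩ }, ?_⟩
  exact charP_of_injective_ringHom (f := (WithAbs.equiv (av v)).symm.toRingHom)
    (WithAbs.equiv (av v)).symm.injective 2

theorem exC : ∃ (C : Type) (_ : NontriviallyNormedField C) (_ : IsUltrametricDist C)
    (_ : CompleteSpace C) (_ : IsAlgClosed C) (_ : Algebra (ZMod 2) C) (T : C), 1 < ‖T‖ := by
  obtain ⟨K, _, _⟩ := exK
  obtain ⟨K0, _, _, _, _, -⟩ := compl K
  have := ultra K0
  let : NontriviallyNormedField (AlgebraicClosure K0) :=
    spectralNorm.nontriviallyNormedField K0 (AlgebraicClosure K0)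
  obtain ⟨C, _, _, _, _, hd⟩ := compl (AlgebraicClosure K0)
  have := ultra C
  obtain ⟨T, hT⟩ := NormedField.exists_one_lt_norm C
  exact ⟨C, inferInstance, this, inferInstance, algClosed_of_dense hd, ZMod.algebra C 2, T, hT⟩

end Pool.Agent.MP_a88b1d_nt.H5
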